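import Mathlib
import Pool.Agent.NPC.Defs
import Pool.Agent.H642R2.TMSim
import Pool.Agent.H697R2.AT.PolyAT

/-!
# Computing the Alon–Tarsi number is NP-hard

The orientation with `EE ≠ EO` is found through signed sums: for the prescribed out-degrees `d`,
the difference `EE - EO` is up to sign the sum of the signs of all the orientations with
out-degrees `d`. The reduction builds a graph with exactly `(k - 1) |V|` edges, so that all the
out-degrees must be `k - 1`. A triangle `a, b, w` such that `w` has exactly two incident free edges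
forces in the signed sum the out-degrees of `a` and `b` outside the triangle to agree (the
orientations with a directed triangle cancel), and a chain of such triangles with auxiliary
vertices carries a truth value through the graph.
-/

set_option autoImplicit false

namespace Pool.Agent.Results.MP_f2fc00_lc.ATNumberNPHard

open Pool.Agent.NPC (PolyTime InNP bits)
open Pool.Agent.NPC.R671 (adjMatrix)
open Pool.Agent.H697R2.AT (ATnum)
open Turing

/-- The class `P`: languages decided by Turing machines in polynomial time. -/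
def InP (L : Set (List Bool)) : Prop :=
  ∃ V : List Bool → List Bool, PolyTime V ∧ ∀ w, w ∈ L ↔ V w = [true]

open Pool.Agent.NPC Pool.Agent.NPC.H697AT Pool.Agent.H697R2.AT in
theorem reduction (κ : ℕ) (hκ : 2 ≤ κ) (L : Set (List Bool)) (hL : InNP L) :
    ∃ f : List Bool → List (List Bool),
      PC (fun x : List Bool => x) (bits : List (List Bool) → List Bool) f ∧
      ∀ w, ∃ (n : ℕ) (G : SimpleGraph (Fin n)), f w = adjMatrix G ∧
        (w ∈ L ↔ ATnum G ≤ κ + 1) := by
  obtain ⟨g, hg, h1, h2⟩ := hardPr_SAT3b L hL
  refine ⟨fun w => mat κ (g w), PC.comp (g := mat κ) (mat_poly κ) hg, fun w => ?_⟩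
  refine ⟨_, grF κ (g w), (adjMatrix_grF κ (g w)).symm, ?_⟩
  rw [h2 w, ATnum_le_iff, good_grF κ hκ (g w) (h1 w).2.1 (h1 w).2.2]

open Pool.Agent.NPC in
theorem inP_of (F : List (List Bool) → ℕ) (hF : Nonempty (TM2ComputableInPolyTime bits bits F))
    (h : ∀ (n : ℕ) (G : SimpleGraph (Fin n)), (ATnum G ≤ 3 ↔ F (adjMatrix G) ≤ 3))
    (L : Set (List Bool)) (hL : InNP L) : InP L := by
  obtain ⟨g, hg, h2⟩ := reduction 2 le_rfl L hL
  have hF' : PC (bits : List (List Bool) → List Bool) (bits : ℕ → List Bool) F :=
    Pool.Agent.H642R2.TMSim.toPC hF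
  have hd : Poly (fun k : ℕ => decide (k ≤ 3)) :=
    Pool.Agent.NPC.Poly.decide_le Pool.Agent.NPC.Poly.id (Pool.Agent.NPC.Poly.const 3)
  have hc : PC (fun w : List Bool => w) (bits : Bool → List Bool)
      (fun w => decide (F (g w) ≤ 3)) := PC.comp (g := fun k : ℕ => decide (k ≤ 3)) hd
        (PC.comp hF' hg)
  refine ⟨fun w => if toT (decide (F (g w) ≤ 3)) = T.nil then [false] else [true],
    PC.toPolyTime ?_, ?_⟩
  · exact PC.ite (ea := (id : List Bool → List Bool)) (eb := (id : List Bool → List Bool))
      (f := fun w => toT (decide (F (g w) ≤ 3))) hc (PC.const [false]) (PC.const [true])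
  · intro w
    obtain ⟨n, G, h3, h4⟩ := h2 w
    rw [h4, h n G, ← h3]
    by_cases hle : F (g w) ≤ 3
    · refine iff_of_true hle ?_
      have e : toT (decide (F (g w) ≤ 3)) ≠ T.nil := by
        rw [decide_eq_true hle]
        intro h
        cases h
      exact if_neg e
    · refine iff_of_false hle ?_
      have e : toT (decide (F (g w) ≤ 3)) = T.nil := by
        rw [decide_eq_false hle]
        rfl
      intro hc
      beta_reduce at hc
      rw [if_pos e] at hc
      simp at hc

/-- **NP-hardness of the Alon–Tarsi number.** (a) For every fixed `k ≥ 3`, deciding `AT(G) ≤ k` is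
`NP`-hard: every language in `NP` is reduced to it in polynomial time, the graphs being given by
adjacency matrices. (b) Hence, if some polynomial-time algorithm computes `AT(G)` from the
adjacency matrix of `G`, then `P = NP`. -/
theorem result :
    (∀ k : ℕ, 3 ≤ k → ∀ L : Set (List Bool), InNP L →
      ∃ f : List Bool → List (List Bool), PolyTime (fun w => bits (f w)) ∧
        ∀ w, ∃ (n : ℕ) (G : SimpleGraph (Fin n)), f w = adjMatrix G ∧
          (w ∈ L ↔ ATnum G ≤ k)) ∧
    (∀ F : List (List Bool) → ℕ, Nonempty (TM2ComputableInPolyTime bits bits F) →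
      (∀ (n : ℕ) (G : SimpleGraph (Fin n)), F (adjMatrix G) = ATnum G) →
        ∀ L : Set (List Bool), InNP L → InP L) := by
  refine ⟨?_, ?_⟩
  · intro k hk L hL
    obtain ⟨f, hf, h⟩ := reduction (k - 1) (by omega) L hL
    refine ⟨f, Pool.Agent.NPC.PC.toPolyTime hf, fun w => ?_⟩
    obtain ⟨n, G, h1, h2⟩ := h w
    refine ⟨n, G, h1, ?_⟩
    rw [h2, show k - 1 + 1 = k by omega]
  · intro F hF h L hL
    exact inP_of F hF (fun n G => by rw [h]) L hL

end Pool.Agent.Results.MP_f2fc00_lc.ATNumberNPHard
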